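import Pool.Agent.H85.FP.Small
import Pool.Agent.H85.FP.Tri
import Pool.Agent.H85.FP.Quad
import Pool.Agent.H85.FP.Penta
import Pool.Agent.H85.FP.Wheel4

/-!
# The maximum number of edges of fan-planar multigraphs without homotopic parallel edges

For every `n ≥ 3` the maximum `M(n)` of the number of edges of an `n`-vertex fan-planar multigraph
without homotopic parallel edges is determined:
`M(3) = 3`, `M(4) = 8` and `M(n) = 5 n - 10` for `n ≥ 5`.

Drawings are described by their planarizations (`Pool.Agent.Q238.FP.Drawing`): crossing points along
each edge, sides of the crossings, cyclic orders at the vertices, faces, Euler's formula.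

Upper bounds. `n ≥ 5`: the bound `5 n - 10` is `Drawing.card_edges_le` (an earlier file). `n = 3`:
crossing edges have four distinct ends, so there are no crossings, and each boundary walk has at
least three darts. `n = 4`: an edge `ab` crossed by two edges `cd` would connect the two sides of the
closed curve formed by them; so every edge is crossed at most once, and there are at most `4 n - 8`
edges.

Lower bounds. `n = k + 2 ≥ 6`: a cycle with `k` vertices and a pole on each side; on each side the
pole is joined to all vertices of the cycle, and for each vertex of the cycle its two neighbours are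
joined by an edge which passes between this vertex and the pole: `k + 2 k + 2 k = 5 n - 10` edges.
`n = 5`: a cycle and all diagonals on each side. `n = 4`: a cycle and both diagonals on each side.
`n = 3`: a triangle.
-/

set_option autoImplicit false

namespace Pool.Agent.Results.MP_7b591c_co.ExactMaximum

open Pool.Agent.Q238.FP Pool.Agent.H85.FP

/-- There is a fan-planar multigraph without homotopic parallel edges with `n` vertices and `m`
edges: a loopless multigraph with vertex set `V` and edge set `E`, with a simple fan-planar drawing
(with set of faces `F`) in which all pairs of parallel edges are non-homotopic. -/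
def Attained (n m : ℕ) : Prop :=
  ∃ (V E F : Type) (_ : Fintype V) (_ : Fintype E) (_ : Finite F) (G : Drawing V E F),
    G.Loopless ∧ G.Simple ∧ G.FanPlanar ∧ G.NonHomotopic ∧
      Fintype.card V = n ∧ Fintype.card E = m

/-- **The exact maximum** `M(n)`, for every `n ≥ 3`. -/
theorem result (n : ℕ) (hn : 3 ≤ n) :
    IsGreatest {m | Attained n m} (if n = 3 then 3 else if n = 4 then 8 else 5 * n - 10) := by
  constructor
  · show Attained _ _
    split_ifs with h3 h4
    · subst h3
      exact ⟨ZMod 3, Tri.Ed, Bool, inferInstance, inferInstance, inferInstance, Tri.draw,
        Tri.loopless, Tri.simple, Tri.fanPlanar, Tri.nonHomotopic, ZMod.card 3, ZMod.card 3⟩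
    · subst h4
      exact ⟨ZMod 4, Quad.Ed, Quad.Fc, inferInstance, inferInstance, inferInstance, Quad.draw,
        Quad.loopless, Quad.simple, Quad.fanPlanar, Quad.nonHomotopic, ZMod.card 4, Quad.card_ed⟩
    · by_cases h5 : n = 5
      · subst h5
        exact ⟨ZMod 5, Penta.Ed, Penta.Fc, inferInstance, inferInstance, inferInstance, Penta.draw,
          Penta.loopless, Penta.simple, Penta.fanPlanar, Penta.nonHomotopic, ZMod.card 5,
          Penta.card_ed⟩
      · obtain ⟨k, rfl⟩ : ∃ k, n = k + 2 := ⟨n - 2, by omega⟩
        have hk : 4 ≤ k := by omega
        have : NeZero k := ⟨by omega⟩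
        refine ⟨Bool ⊕ ZMod k, Wheel.Ed k, Wheel.Fc k, inferInstance, inferInstance, inferInstance,
          Wheel.draw k, Wheel.loopless hk, Wheel.simple hk, Wheel.fanPlanar,
          Wheel.nonHomotopic hk, ?_, ?_⟩
        · rw [Fintype.card_sum, Fintype.card_bool, ZMod.card]
          omega
        · rw [Wheel.card_ed]
          omega
  · rintro m ⟨V, E, F, iV, iE, iF, G, hl, hs, hf, hh, hV, rfl⟩
    have h3 : 3 ≤ Fintype.card V := by omega
    split_ifs with e3 e4
    · have := card_planar G hl hs hf hh h3 (len_zero G hl hs (by omega))
      omega
    · have := card_le_one G hl hs hf hh h3 (len_le_one hl hs hh (by omega))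
      omega
    · have := G.card_edges_le hl hs hf hh h3
      omega

end Pool.Agent.Results.MP_7b591c_co.ExactMaximum
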